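import Mathlib
import Pool.Agent.Helper99.CT.Defs

set_option autoImplicit false

/-!
Project CT (cactus groups, MP_2b0b8a_al), packet ORD: in a pure word every pair of points lies in
an even number of letters.
-/

namespace Pool.Agent.Helper66.CT

open Pool.Agent.Helper99.CT

variable {n : ℕ}

theorem rho_s_eq (g : Gen n) : rho n (s g) = flip g := by
  ext i
  rw [rho_s]
  rfl

theorem flip_symm_apply (g : Gen n) (i : Fin n) : (flip g)⁻¹ i = flipFun g i := rfl

theorem mem_mv (g : Gen n) (S : Finset (Fin n)) (i : Fin n) :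
    i ∈ mv (flip g) S ↔ flipFun g i ∈ S := by
  unfold mv
  rw [Finset.mem_map_equiv]
  rfl

theorem flip_lt (g : Gen n) (i j : Fin n) (hij : i ≠ j) :
    ((flipFun g i < flipFun g j) ↔ (i < j)) ↔ ¬ (i ∈ pts g ∧ j ∈ pts g) := by
  have hi := i.2
  have hj := j.2
  have hne : i.1 ≠ j.1 := fun h => hij (Fin.ext h)
  have h1 := g.one_le
  have h2 := g.lt
  have h3 := g.le
  simp only [pts, Finset.mem_filter, Finset.mem_univ, true_and]
  rw [Fin.lt_def, Fin.lt_def, flipFun_val, flipFun_val]
  split_ifs <;> omega

theorem ord_aux (L : List (Gen n)) : ∀ i j : Fin n, i ≠ j →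
    ((((rho n (word L))⁻¹ i < (rho n (word L))⁻¹ j) ↔ (i < j)) ↔
      Even ((letters L).countP (fun S => i ∈ S ∧ j ∈ S))) := by
  induction L with
  | nil =>
    intro i j _
    simp [word, letters]
  | cons g L ih =>
    intro i j hij
    have hw : word (g :: L) = s g * word L := by simp [word]
    have hne : flipFun g i ≠ flipFun g j := fun h => hij (by
      rw [← flipFun_flipFun g i, h, flipFun_flipFun])
    have e : ∀ k : Fin n, (rho n (word (g :: L)))⁻¹ k = (rho n (word L))⁻¹ (flipFun g k) := by
      intro k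
      rw [hw, map_mul, mul_inv_rev, Equiv.Perm.mul_apply, rho_s_eq, flip_symm_apply]
    have hc : ((letters L).map (mv (flip g))).countP (fun S => i ∈ S ∧ j ∈ S) =
        (letters L).countP (fun S => flipFun g i ∈ S ∧ flipFun g j ∈ S) := by
      rw [List.countP_map]
      apply List.countP_congr
      intro S _
      simp [mem_mv]
    have h1 := ih _ _ hne
    have h2 := flip_lt g i j hij
    rw [e, e]
    show _ ↔ Even ((pts g :: (letters L).map (mv (flip g))).countP (fun S => i ∈ S ∧ j ∈ S))
    rw [List.countP_cons, hc]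
    by_cases hp : i ∈ pts g ∧ j ∈ pts g
    · have h3 : (decide (i ∈ pts g ∧ j ∈ pts g)) = true := by simp [hp]
      rw [if_pos h3, Nat.even_add_one, ← h1]
      tauto
    · have h3 : ¬ (decide (i ∈ pts g ∧ j ∈ pts g)) = true := by simpa using hp
      rw [if_neg h3, add_zero, ← h1]
      tauto

theorem ord : GoalOrd := by
  intro n L hL i j hij
  rw [← ord_aux L i j hij, hL]
  simp

end Pool.Agent.Helper66.CT
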